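import Pool.Agent.TH217.TL.Prod

set_option autoImplicit false

/-!
# Lagrangians all of whose potential perturbations have escaping orbits

Let `2 ≤ k ≤ ∞`, `n ≥ 1`.  Every `C^k` Lagrangian `L₀` on `T 𝕋^n × 𝕋` with positive definite fibre
Hessian coincides, on any prescribed set `{‖v‖ ≤ R}`, with a `C^k` Tonelli Lagrangian `L` which has
a neighbourhood for the fine (Whitney) topology such that for EVERY fibre-convex `C^2` Lagrangian
`L'` of this neighbourhood and EVERY potential `f` of class `C^2` on `𝕋^n × 𝕋` the Lagrangian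
`L' + f` is Tonelli and its Euler-Lagrange flow has an open set of orbits which tend to infinity.
So the Tonelli Lagrangians whose residual set `O(L)` of Arnold's question is all of
`C^k(𝕋^n × 𝕋)` contain a set which is dense for the compact-open `C^k` topology and all of whose
points are interior for the fine topology: the behaviour of `L` for bounded velocities is no
obstruction, and no coincidence is needed.  The same `L'` and the same initial conditions work on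
the products `𝕋^n × N` with any manifold `N`, for the Lagrangians `L'(x,v,t) + L_N(y,w,t)`.
-/

namespace Pool.Agent.Results.MP_6acca1_an.DenseAccelerators

open Set Filter Topology
open scoped Manifold ContDiff

/-- `f(x,t)` is `ℤ^n × ℤ`-periodic: a function on `𝕋^n × 𝕋`. -/
def Periodic {n : ℕ} (f : (Fin n → ℝ) → ℝ → ℝ) : Prop :=
  ∀ (x : Fin n → ℝ) (t : ℝ) (k : Fin n → ℤ) (l : ℤ), f (fun i => x i + k i) (t + l) = f x t

/-- `L(x,v,t)` is `ℤ^n × ℤ`-periodic in `(x,t)`: a function on `T 𝕋^n × 𝕋`. -/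
def PeriodicL {n : ℕ} (L : (Fin n → ℝ) → (Fin n → ℝ) → ℝ → ℝ) : Prop :=
  ∀ (x v : Fin n → ℝ) (t : ℝ) (k : Fin n → ℤ) (l : ℤ),
    L (fun i => x i + k i) v (t + l) = L x v t

/-- The partial derivative `∂L/∂v_i`. -/
noncomputable def dv {n : ℕ} (L : (Fin n → ℝ) → (Fin n → ℝ) → ℝ → ℝ) (i : Fin n)
    (x v : Fin n → ℝ) (t : ℝ) : ℝ := deriv (fun s => L x (Function.update v i s) t) (v i)

/-- The partial derivative `∂L/∂x_i`. -/
noncomputable def dx {n : ℕ} (L : (Fin n → ℝ) → (Fin n → ℝ) → ℝ → ℝ) (i : Fin n)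
    (x v : Fin n → ℝ) (t : ℝ) : ℝ := deriv (fun s => L (Function.update x i s) v t) (x i)

/-- The partial derivative `∂f/∂x_i`. -/
noncomputable def df {n : ℕ} (f : (Fin n → ℝ) → ℝ → ℝ) (i : Fin n) (x : Fin n → ℝ) (t : ℝ) : ℝ :=
  deriv (fun s => f (Function.update x i s) t) (x i)

/-- `γ : ℝ → ℝ^n` is a solution, defined for all times, of the Euler-Lagrange equations
`d/dt ∂L/∂v_i (γ, γ', t) = ∂L/∂x_i (γ, γ', t)`. -/
def IsOrbit {n : ℕ} (L : (Fin n → ℝ) → (Fin n → ℝ) → ℝ → ℝ) (γ : ℝ → (Fin n → ℝ)) : Prop :=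
  (∀ t, DifferentiableAt ℝ γ t) ∧
  ∀ (t : ℝ) (i : Fin n), HasDerivAt (fun s => dv L i (γ s) (deriv γ s) s)
    (dx L i (γ t) (deriv γ t) t) t

/-- Every initial condition has a solution defined for all times. -/
def Complete {n : ℕ} (L : (Fin n → ℝ) → (Fin n → ℝ) → ℝ → ℝ) : Prop :=
  ∀ (t₀ : ℝ) (x₀ v₀ : Fin n → ℝ),
    ∃ γ : ℝ → (Fin n → ℝ), IsOrbit L γ ∧ γ t₀ = x₀ ∧ deriv γ t₀ = v₀

/-- `C^k` periodic Lagrangians with positive definite fibre Hessian. -/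
def Convex {n : ℕ} (k : ℕ∞) (L : (Fin n → ℝ) → (Fin n → ℝ) → ℝ → ℝ) : Prop :=
  ContDiff ℝ k (fun q : (Fin n → ℝ) × (Fin n → ℝ) × ℝ => L q.1 q.2.1 q.2.2) ∧
  PeriodicL L ∧
  ∀ (x v : Fin n → ℝ) (t : ℝ) (w : Fin n → ℝ), w ≠ 0 →
    0 < deriv (deriv (fun s : ℝ => L x (v + s • w) t)) 0

/-- `C^k` Tonelli Lagrangians on `T 𝕋^n × 𝕋`. -/
def Tonelli {n : ℕ} (k : ℕ∞) (L : (Fin n → ℝ) → (Fin n → ℝ) → ℝ → ℝ) : Prop :=
  Convex k L ∧
  (∀ K : ℝ, ∃ B : ℝ, ∀ (x v : Fin n → ℝ) (t : ℝ), K * ‖v‖ - B ≤ L x v t) ∧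
  Complete L

/-- `L'` is near `L`: for all `x, v, t, i`, `|∂L'/∂v_i - ∂L/∂v_i| ≤ ε ⌊‖v‖⌋` and
`|∂L'/∂x_i - ∂L/∂x_i| ≤ G`. -/
def Near {n : ℕ} (L L' : (Fin n → ℝ) → (Fin n → ℝ) → ℝ → ℝ) (ε : ℕ → ℝ) (G : ℝ) : Prop :=
  ∀ (x v : Fin n → ℝ) (t : ℝ) (i : Fin n),
    |dv L' i x v t - dv L i x v t| ≤ ε ⌊‖v‖⌋₊ ∧ |dx L' i x v t - dx L i x v t| ≤ G

/-- `(γ(t), y(t))` satisfies the `x`-part of the Euler-Lagrange equations on `𝕋^n × N` of the
Lagrangian `L(x,v,t) + L_N(y,w,t) + F(x,y,t)`, that is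
`d/dt ∂L/∂v_i (γ, γ', t) = ∂L/∂x_i (γ, γ', t) + ∂F/∂x_i (γ, y, t)`; it does not involve `L_N`. -/
def IsXOrbit {n : ℕ} {N : Type} (L : (Fin n → ℝ) → (Fin n → ℝ) → ℝ → ℝ)
    (F : (Fin n → ℝ) → N → ℝ → ℝ) (γ : ℝ → (Fin n → ℝ)) (y : ℝ → N) : Prop :=
  (∀ t, DifferentiableAt ℝ γ t) ∧
  ∀ (t : ℝ) (i : Fin n), HasDerivAt (fun s => dv L i (γ s) (deriv γ s) s)
    (dx L i (γ t) (deriv γ t) t + deriv (fun s => F (Function.update (γ t) i s) (y t) t) (γ t i)) t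

/-- Let `n ≥ 1`, `2 ≤ k ≤ ∞`, let `L₀` be a `C^k` Lagrangian on `T 𝕋^n × 𝕋` with positive definite
fibre Hessian and `R` a real number.  There are a `C^k` Tonelli Lagrangian `L` which equals `L₀` for
`‖v‖ ≤ R` and positive numbers `ε 0, ε 1, …` such that for every `G` there are a time `t₀` and a
nonempty open set `U` of positions and velocities with the following properties.  Let `L'` be a
`C^2` Lagrangian on `T 𝕋^n × 𝕋` with positive definite fibre Hessian, with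
`|∂L'/∂v_i - ∂L/∂v_i| ≤ ε ⌊‖v‖⌋` and `|∂L'/∂x_i - ∂L/∂x_i| ≤ G`.

* If `f` is a periodic `C^2` potential with `|∂f/∂x_i| ≤ G` (every periodic `C^2` potential
  satisfies this for some `G`), then `L' + f` is a Tonelli Lagrangian, and for every orbit of
  `L' + f` which is in `U` at time `t₀` every component of the velocity is at least `t - 5/2` for
  all `t ≥ t₀`; in particular it tends to `+∞`.
* If `N` is a manifold, `F` a `C^2` function of `(x, y, t)`, `y ∈ N`, with `|∂F/∂x_i| ≤ G`, `y(t)` a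
  `C^2` curve, and `x(t)` satisfies the `x`-part of the Euler-Lagrange equations of
  `L'(x,v,t) + L_N(y,w,t) + F(x,y,t)` along `(x(t), y(t))` and `(x(t₀), x'(t₀))` is in `U`, then
  again every component of `x'(t)` is at least `t - 5/2` for all `t ≥ t₀`. -/
theorem result (n : ℕ) (hn : 1 ≤ n) (k : ℕ∞) (hk : 2 ≤ k)
    (L₀ : (Fin n → ℝ) → (Fin n → ℝ) → ℝ → ℝ) (h₀ : Convex k L₀) (R : ℝ) :
    ∃ L : (Fin n → ℝ) → (Fin n → ℝ) → ℝ → ℝ, Tonelli k L ∧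
      (∀ (x v : Fin n → ℝ) (t : ℝ), ‖v‖ ≤ R → L x v t = L₀ x v t) ∧
      (∀ f : (Fin n → ℝ) → ℝ → ℝ,
        ContDiff ℝ 2 (fun q : (Fin n → ℝ) × ℝ => f q.1 q.2) → Periodic f →
        ∃ G : ℝ, ∀ (i : Fin n) (x : Fin n → ℝ) (t : ℝ), |df f i x t| ≤ G) ∧
      ∃ ε : ℕ → ℝ, (∀ m, 0 < ε m) ∧
        ∀ G : ℝ, ∃ (t₀ : ℝ) (U : Set ((Fin n → ℝ) × (Fin n → ℝ))), IsOpen U ∧ U.Nonempty ∧
          ∀ L' : (Fin n → ℝ) → (Fin n → ℝ) → ℝ → ℝ, Convex 2 L' → Near L L' ε G →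
          (∀ f : (Fin n → ℝ) → ℝ → ℝ,
            ContDiff ℝ 2 (fun q : (Fin n → ℝ) × ℝ => f q.1 q.2) → Periodic f →
            (∀ (i : Fin n) (x : Fin n → ℝ) (t : ℝ), |df f i x t| ≤ G) →
            Tonelli 2 (fun x v t => L' x v t + f x t) ∧
            ∀ γ : ℝ → (Fin n → ℝ), IsOrbit (fun x v t => L' x v t + f x t) γ →
              (γ t₀, deriv γ t₀) ∈ U →
              ∀ (i : Fin n) (t : ℝ), t₀ ≤ t → t - 5 / 2 ≤ deriv γ t i) ∧
          ∀ (E : Type) [NormedAddCommGroup E] [NormedSpace ℝ E] (H : Type) [TopologicalSpace H]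
            (I : ModelWithCorners ℝ E H) (N : Type) [TopologicalSpace N] [ChartedSpace H N]
            (F : (Fin n → ℝ) → N → ℝ → ℝ) (y : ℝ → N),
            ContMDiff (𝓘(ℝ, Fin n → ℝ).prod (I.prod 𝓘(ℝ, ℝ))) 𝓘(ℝ, ℝ) 2
              (fun q : (Fin n → ℝ) × N × ℝ => F q.1 q.2.1 q.2.2) →
            (∀ (i : Fin n) (x : Fin n → ℝ) (z : N) (t : ℝ),
              |deriv (fun s => F (Function.update x i s) z t) (x i)| ≤ G) →
            ContMDiff 𝓘(ℝ, ℝ) I 2 y →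
            ∀ γ : ℝ → (Fin n → ℝ), IsXOrbit L' F γ y → (γ t₀, deriv γ t₀) ∈ U →
              ∀ (i : Fin n) (t : ℝ), t₀ ≤ t → t - 5 / 2 ≤ deriv γ t i := by
  obtain ⟨L, h1, h2, h3, h4, h5, h6, ε, h7, h8⟩ :=
    Pool.Agent.TH217.TL.dense4 hn hk h₀.1 h₀.2.1 h₀.2.2 R
  refine ⟨L, ⟨⟨h1, h2, h3⟩, h4, h5⟩, h6, ?_, ε, h7, ?_⟩
  · intro f hf hfp
    obtain ⟨G, -, hG⟩ := Pool.Agent.W787.TL.gb_thm n f hf hfp
    exact ⟨G, hG⟩
  · intro G
    obtain ⟨t₀, U, hU1, hU2, hU3⟩ := h8 G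
    refine ⟨t₀, U, hU1, hU2, ?_⟩
    intro L' hL' hcl
    have hS : Pool.Agent.TH217.TL.Sm L' := hL'.1
    obtain ⟨a1, a2⟩ := hU3 L' hS hL'.2.1 hL'.2.2 hcl
    refine ⟨?_, ?_⟩
    · intro f hf hfp hG
      obtain ⟨b1, b2⟩ := a1 f hf hfp
      exact ⟨⟨⟨Pool.Agent.TH217.TL.sm_add hS hf, Pool.Agent.TH217.TL.per_add hL'.2.1 hfp,
        Pool.Agent.TH217.TL.pos_add hL'.2.2 f⟩, b1, b2⟩, a2 f hf hG⟩
    · intro E _ _ H _ I N _ _ F y hF hFG hy γ hγ hγU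
      have hf : ContDiff ℝ 2 (fun q : (Fin n → ℝ) × ℝ => F q.1 (y q.2) q.2) := by
        have c1 : ContMDiff 𝓘(ℝ, (Fin n → ℝ) × ℝ) 𝓘(ℝ, Fin n → ℝ) 2
            (fun q : (Fin n → ℝ) × ℝ => q.1) := contDiff_fst.contMDiff
        have c2 : ContMDiff 𝓘(ℝ, (Fin n → ℝ) × ℝ) 𝓘(ℝ, ℝ) 2
            (fun q : (Fin n → ℝ) × ℝ => q.2) := contDiff_snd.contMDiff
        exact (hF.comp (c1.prodMk ((hy.comp c2).prodMk c2))).contDiff
      have hf2 : Pool.Agent.W774.TL.C2 (fun x t => F x (y t) t) := hf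
      refine a2 (fun x t => F x (y t) t) hf2 (fun i x t => hFG i x (y t) t) γ ?_ hγU
      exact (Pool.Agent.TH217.TL.el_iff2 hS hf2 γ).2 hγ

end Pool.Agent.Results.MP_6acca1_an.DenseAccelerators
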